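import Pool.Agent.helper85.T7.SpecS

/-!
# T7 (MP_16912e_nt): row SLA7
-/

set_option autoImplicit false

namespace Pool.Agent.T7

open Finset NumberField Pool.Agent.helper3.FT Pool.Agent.helper47.RA Pool.Agent.T5 Pool.Agent.T6

theorem SLA7 (hLA7 : LA7_stmt) (hLE7 : LE7_stmt) : SLA7_stmt := by
  classical
  intro w ε hε
  obtain ⟨A, hA1, hLA⟩ := hLA7 w ε hε
  obtain ⟨hMW1, -, -, hwt⟩ := SMW
  obtain ⟨hfin1, hfin2, -⟩ := SFA
  refine ⟨A, hA1, ?_⟩
  intro K _ _ Q N Y R hK hN hD1 hD2 hR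
  have hN0 : 0 < N := by linarith
  have hsN : 0 < √N := Real.sqrt_pos.2 hN0
  have hR0 : 0 < R := by linarith
  have hDneg : Q.D < 0 := by
    have : (Q.D : ℝ) < 0 := by linarith
    exact_mod_cast this
  have hA := hfin1 K Y
  have hAL := hfin2 K Q hDneg
  have hE1 : (EX Q Y (A * √N / R)).Finite := hA.subset fun a ha => ha.1
  have hE0 : (EX Q Y (√N / (6 * R))).Finite := hA.subset fun a ha => ha.1
  have hle : √N / (6 * R) ≤ A * √N / R := by
    rw [div_le_div_iff₀ (by positivity) hR0]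
    have h1 : 0 < √N * R := mul_pos hsN hR0
    nlinarith
  have hsub : EX Q Y (√N / (6 * R)) ⊆ EX Q Y (A * √N / R) := by
    rintro a ⟨h1, α, h2, h3, h4⟩
    refine ⟨h1, α, h2, h3, h4.trans ?_⟩
    exact mul_le_mul_of_nonneg_left hle (by positivity)
  have hM : 0 ≤ MW w := zero_le_one.trans (hMW1 w)
  -- the set of pairs is finite
  have hG : (G07 Q N Y (R * √N)).Finite := by
    have h1 : (⋃ a ∈ IA K Y, (fun α => (a, α)) '' AL Q a (R * √N * √(-(Q.D : ℝ)) / √N)).Finite :=
      hA.biUnion fun a _ => (hAL a _).image _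
    refine h1.subset ?_
    rintro ⟨a, α⟩ ⟨h2, h3, -⟩
    exact Set.mem_biUnion h2 ⟨α, h3, rfl⟩
  rw [finsum_mem_eq_finite_toFinset_sum _ hG]
  have hmaps : ∀ x ∈ hG.toFinset, x.1 ∈ hA.toFinset := by
    intro x hx
    rw [Set.Finite.mem_toFinset] at hx ⊢
    exact hx.1
  rw [← Finset.sum_fiberwise_of_maps_to hmaps]
  -- the bound for one ideal
  have hone : ∀ a ∈ hA.toFinset,
      ∑ x ∈ hG.toFinset.filter (fun x => x.1 = a), wt Q w x.1 x.2 ≤
        (Real.pi + ε) * R +
          (if a ∈ EX Q Y (A * √N / R) then MW w * (8 * R) - (Real.pi + ε) * R else 0) +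
          (if a ∈ EX Q Y (√N / (6 * R)) then MW w - MW w * (8 * R) else 0) := by
    intro a ha
    rw [Set.Finite.mem_toFinset] at ha
    have hinj : Set.InjOn (fun x : Ideal (𝓞 K) × 𝓞 K => x.2)
        (hG.toFinset.filter (fun x => x.1 = a)) := by
      intro x hx y hy hxy
      rw [Finset.mem_coe, Finset.mem_filter] at hx hy
      exact Prod.ext (hx.2.trans hy.2.symm) hxy
    have hsum : ∑ x ∈ hG.toFinset.filter (fun x => x.1 = a), wt Q w x.1 x.2 =
        ∑ α ∈ (hG.toFinset.filter (fun x => x.1 = a)).image (fun x => x.2), wt Q w a α := by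
      rw [Finset.sum_image hinj]
      refine Finset.sum_congr rfl fun x hx => ?_
      rw [(Finset.mem_filter.1 hx).2]
    rw [hsum]
    have hmem : ∀ α ∈ (hG.toFinset.filter (fun x => x.1 = a)).image (fun x => x.2),
        α ∈ AL Q a (R * √N * √(-(Q.D : ℝ)) / √N) ∧
          ∀ q : ℕ, q.Prime → ¬ Ideal.span {(q : 𝓞 K)} * a ^ 2 ∣ Ideal.span {α} := by
      intro α hα
      obtain ⟨x, hx, rfl⟩ := Finset.mem_image.1 hα
      obtain ⟨hx1, hx2⟩ := Finset.mem_filter.1 hx
      rw [Set.Finite.mem_toFinset] at hx1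
      obtain ⟨-, h3, γ, h4, -⟩ := hx1
      rw [hx2] at h3 h4
      exact ⟨h3, h4.pL⟩
    have hcard : ∑ α ∈ (hG.toFinset.filter (fun x => x.1 = a)).image (fun x => x.2), wt Q w a α ≤
        ((((hG.toFinset.filter (fun x => x.1 = a)).image (fun x => x.2)).card : ℕ) : ℝ) * MW w := by
      have h7 : ∑ α ∈ (hG.toFinset.filter (fun x => x.1 = a)).image (fun x => x.2), wt Q w a α ≤
          ((hG.toFinset.filter (fun x => x.1 = a)).image (fun x => x.2)).card • MW w :=
        Finset.sum_le_card_nsmul _ _ _ fun α _ => (hwt K Q w a α).2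
      rwa [nsmul_eq_mul] at h7
    have hLEa := hLE7 K Q N R a hN0 hR hD1 hD2 ha.2.1 ha.1 _ hmem
    by_cases haE : a ∈ EX Q Y (A * √N / R)
    · by_cases haE0 : a ∈ EX Q Y (√N / (6 * R))
      · rw [if_pos haE, if_pos haE0]
        have h8 := hLEa.2 haE0.2
        have h9 : ((((hG.toFinset.filter (fun x => x.1 = a)).image (fun x => x.2)).card : ℕ) : ℝ) ≤ 1 := by
          exact_mod_cast h8
        have h10 := mul_le_mul_of_nonneg_right h9 hM
        linarith
      · rw [if_pos haE, if_neg haE0]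
        have h10 := mul_le_mul_of_nonneg_right hLEa.1 hM
        linarith
    · have haE0 : a ∉ EX Q Y (√N / (6 * R)) := fun h => haE (hsub h)
      rw [if_neg haE, if_neg haE0, add_zero, add_zero]
      have hAN : A * N ≤ A * √N / R * (R * √N) := by
        have h5 : A * √N / R * (R * √N) = A * (√N * √N) := by field_simp
        rw [h5, Real.mul_self_sqrt hN0.le]
      have h6 := hLA K Q N Y (R * √N) (A * √N / R) a hN0 hD1 hD2 (by positivity) (by positivity) hAN ha haE
        (hAL a (R * √N * √(-(Q.D : ℝ)) / √N)).toFinset (fun α => by rw [Set.Finite.mem_toFinset])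
      have h7 : ∑ α ∈ (hG.toFinset.filter (fun x => x.1 = a)).image (fun x => x.2), wt Q w a α ≤
          ∑ α ∈ (hAL a (R * √N * √(-(Q.D : ℝ)) / √N)).toFinset, wt Q w a α := by
        refine Finset.sum_le_sum_of_subset_of_nonneg ?_ fun α _ _ => (hwt K Q w a α).1
        intro α hα
        rw [Set.Finite.mem_toFinset]
        exact (hmem α hα).1
      have h8 : R * √N / √N = R := by field_simp
      rw [h8] at h6
      have h9 := (abs_le.1 h6).2
      linarith
  refine (Finset.sum_le_sum hone).trans ?_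
  have hf1 : hA.toFinset.filter (fun a => a ∈ EX Q Y (A * √N / R)) = hE1.toFinset := by
    ext a
    rw [Finset.mem_filter, Set.Finite.mem_toFinset, Set.Finite.mem_toFinset]
    exact ⟨fun h => h.2, fun h => ⟨h.1, h⟩⟩
  have hf0 : hA.toFinset.filter (fun a => a ∈ EX Q Y (√N / (6 * R))) = hE0.toFinset := by
    ext a
    rw [Finset.mem_filter, Set.Finite.mem_toFinset, Set.Finite.mem_toFinset]
    exact ⟨fun h => h.2, fun h => ⟨h.1, h⟩⟩
  rw [Finset.sum_add_distrib, Finset.sum_add_distrib, Finset.sum_const, nsmul_eq_mul, Finset.sum_ite,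
    Finset.sum_const_zero, add_zero, Finset.sum_const, nsmul_eq_mul, Finset.sum_ite, Finset.sum_const_zero,
    add_zero, Finset.sum_const, nsmul_eq_mul, hf1, hf0, Set.ncard_eq_toFinset_card _ hA,
    Set.ncard_eq_toFinset_card _ hE1, Set.ncard_eq_toFinset_card _ hE0]
  linarith

end Pool.Agent.T7
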